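import Mathlib

set_option autoImplicit false

namespace Pool.Agent.H67T

open Equiv

/-- the group of finitary automorphisms of the binary rooted tree -/
def GG : Subgroup (Perm (List Bool)) where
  carrier := {g | (∀ w, (g w).length = w.length) ∧ (∀ w, (g w).tail = g w.tail) ∧
    ∃ N, ∀ w : List Bool, N ≤ w.length → ∀ b, g (b :: w) = b :: g w}
  mul_mem' := by
    rintro g h ⟨g1, g2, N, hN⟩ ⟨h1, h2, M, hM⟩
    refine ⟨fun w => ?_, fun w => ?_, max N M, fun w hw b => ?_⟩
    · rw [Perm.mul_apply, g1, h1]
    · rw [Perm.mul_apply, Perm.mul_apply, g2, h2]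
    · rw [Perm.mul_apply, Perm.mul_apply, hM w (le_trans (le_max_right _ _) hw),
        hN (h w) (by rw [h1]; exact le_trans (le_max_left _ _) hw)]
  one_mem' := ⟨fun _ => rfl, fun _ => rfl, 0, fun _ _ _ => rfl⟩
  inv_mem' := by
    rintro g ⟨g1, g2, N, hN⟩
    have h1 : ∀ w, (g⁻¹ w).length = w.length := by
      intro w
      have := g1 (g⁻¹ w)
      rw [show g (g⁻¹ w) = w from g.apply_symm_apply w] at this
      exact this.symm
    refine ⟨h1, fun w => ?_, N, fun w hw b => ?_⟩
    · have := g2 (g⁻¹ w)
      rw [show g (g⁻¹ w) = w from g.apply_symm_apply w] at this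
      rw [this]
      exact (g.symm_apply_apply _).symm
    · have := hN (g⁻¹ w) (by rw [h1]; exact hw) b
      rw [show g (g⁻¹ w) = w from g.apply_symm_apply w] at this
      rw [← this]
      exact g.symm_apply_apply _

theorem GG_len (g : GG) (w : List Bool) : (g.1 w).length = w.length := g.2.1 w
theorem GG_tail (g : GG) (w : List Bool) : (g.1 w).tail = g.1 w.tail := g.2.2.1 w

instance actL : MulAction GG (List Bool) := Subgroup.instMulAction

theorem smul_def' (g : GG) (w : List Bool) : g • w = g.1 w := rfl

theorem smul_len (g : GG) (w : List Bool) : (g • w).length = w.length := g.2.1 w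
theorem smul_tail (g : GG) (w : List Bool) : (g • w).tail = g • w.tail := g.2.2.1 w

/-- a level of the tree -/
abbrev Lv (n : ℕ) : Type := List.Vector Bool n

instance actLv (n : ℕ) : MulAction GG (Lv n) where
  smul g v := ⟨g • v.1, by rw [smul_len]; exact v.2⟩
  one_smul v := Subtype.ext rfl
  mul_smul g h v := Subtype.ext rfl

theorem smul_val (n : ℕ) (g : GG) (v : Lv n) : (g • v).1 = g • v.1 := rfl

/-- the action on a level -/
def lv (n : ℕ) : GG →* Perm (Lv n) := MulAction.toPermHom GG (Lv n)

theorem lv_apply (n : ℕ) (g : GG) (v : Lv n) : lv n g v = g • v := rfl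

/-- the sign of the action on a level -/
def sg (n : ℕ) : GG →* ℤˣ := Perm.sign.comp (lv n)

theorem mem_ker_lv (n : ℕ) (g : GG) : g ∈ (lv n).ker ↔ ∀ w : List Bool, w.length = n → g • w = w := by
  rw [MonoidHom.mem_ker]
  constructor
  · intro h w hw
    have := DFunLike.congr_fun h (⟨w, hw⟩ : Lv n)
    exact congrArg Subtype.val this
  · intro h
    ext1 v
    exact Subtype.ext (h v.1 v.2)

theorem ker_lv_le {m n : ℕ} (h : m ≤ n) : (lv n).ker ≤ (lv m).ker := by
  induction n, h using Nat.le_induction with
  | base => exact le_rfl
  | succ n _ ih =>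
    refine le_trans ?_ ih
    intro g hg
    rw [mem_ker_lv] at hg ⊢
    intro w hw
    have h1 := hg (true :: w) (by simp [hw])
    have h2 := smul_tail g (true :: w)
    rw [h1] at h2
    exact h2.symm

theorem exists_bit (g : GG) (b : Bool) (w : List Bool) : ∃ c, g • (b :: w) = c :: (g • w) := by
  have h1 := smul_len g (b :: w)
  have h2 := smul_tail g (b :: w)
  cases hgw : g • (b :: w) with
  | nil => rw [hgw] at h1; simp at h1
  | cons c x =>
    rw [hgw] at h2
    exact ⟨c, by rw [← (show x = g • w from h2)]⟩

/-! ### signs -/

/-- level `n+1` as pairs -/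
def splitLv (n : ℕ) : Lv (n + 1) ≃ Bool × Lv n where
  toFun v := (v.head, v.tail)
  invFun p := p.1 ::ᵥ p.2
  left_inv v := by simp
  right_inv p := by simp

theorem sg_eq_one (n : ℕ) (g : GG) (h : ∀ w : List Bool, w.length = n → ∀ b, g • (b :: w) = b :: (g • w)) :
    sg (n + 1) g = 1 := by
  show Perm.sign (lv (n + 1) g) = 1
  have h1 : lv (n + 1) g = (splitLv n).symm.permCongr (Equiv.prodCongrRight fun _ : Bool => lv n g) := by
    ext1 v
    apply Subtype.ext
    obtain ⟨⟨b, w⟩, rfl⟩ := (splitLv n).symm.surjective v
    simp only [Equiv.permCongr_apply, Equiv.symm_symm, Equiv.apply_symm_apply,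
      Equiv.prodCongrRight_apply]
    exact h w.1 w.2 b
  rw [h1, Perm.sign_permCongr, Perm.sign_prodCongrRight]
  simp

theorem sg_of_large (g : GG) : ∃ N, ∀ n, N ≤ n → sg n g = 1 := by
  obtain ⟨N, hN⟩ := g.2.2.2
  refine ⟨N + 1, fun n hn => ?_⟩
  obtain ⟨m, rfl⟩ : ∃ m, n = m + 1 := ⟨n - 1, by omega⟩
  exact sg_eq_one m g fun w hw b => hN w (by omega) b

theorem mulSupport_sg_finite (g : GG) : (Function.mulSupport fun n => sg n g).Finite := by
  obtain ⟨N, hN⟩ := sg_of_large g
  apply (Set.finite_Iio N).subset
  intro n hn
  by_contra hcon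
  exact hn (hN n (not_lt.1 hcon))

/-! ### flips -/

/-- flips the two children of `u` -/
def flipF (u : List Bool) : List Bool → List Bool
  | [] => []
  | b :: w => (if w = u then !b else b) :: flipF u w

theorem flipF_len (u w : List Bool) : (flipF u w).length = w.length := by
  induction w with
  | nil => rfl
  | cons b w ih => simp [flipF, ih]

theorem flipF_short (u w : List Bool) (h : w.length ≤ u.length) : flipF u w = w := by
  induction w with
  | nil => rfl
  | cons b w ih =>
    have h1 : w ≠ u := by
      rintro rfl
      simp at h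
    simp only [flipF, h1, if_false]
    rw [ih (by simp at h; omega)]

theorem flipF_eq_self_iff (u w : List Bool) : flipF u w = u ↔ w = u := by
  constructor
  · intro h
    have h1 : w.length = u.length := by rw [← flipF_len u w, h]
    rw [flipF_short u w h1.le] at h
    exact h
  · rintro rfl
    exact flipF_short w w le_rfl

theorem flipF_flipF (u w : List Bool) : flipF u (flipF u w) = w := by
  induction w with
  | nil => rfl
  | cons b w ih =>
    simp only [flipF, ih, flipF_eq_self_iff]
    by_cases h : w = u <;> simp [h]

/-- the flip as an element of the group -/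
def flip (u : List Bool) : GG := ⟨⟨flipF u, flipF u, flipF_flipF u, flipF_flipF u⟩, by
  refine ⟨flipF_len u, fun w => ?_, u.length + 1, fun w hw b => ?_⟩
  · cases w with
    | nil => rfl
    | cons b w => rfl
  · have : w ≠ u := by
      rintro rfl
      omega
    show flipF u (b :: w) = b :: flipF u w
    simp [flipF, this]⟩

theorem flip_smul (u w : List Bool) : flip u • w = flipF u w := rfl

theorem flip_mem_ker (u : List Bool) (n : ℕ) (h : n ≤ u.length) : flip u ∈ (lv n).ker := by
  rw [mem_ker_lv]
  intro w hw
  exact flipF_short u w (by omega)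

theorem sg_flip_self (u : List Bool) : sg (u.length + 1) (flip u) = -1 := by
  show Perm.sign (lv (u.length + 1) (flip u)) = -1
  let x : Lv (u.length + 1) := ⟨true :: u, by simp⟩
  let y : Lv (u.length + 1) := ⟨false :: u, by simp⟩
  have hxy : x ≠ y := by
    intro h
    have := congrArg Subtype.val h
    simp [x, y] at this
  have h1 : lv (u.length + 1) (flip u) = Equiv.swap x y := by
    ext1 v
    by_cases hvx : v = x
    · subst hvx
      rw [Equiv.swap_apply_left]
      apply Subtype.ext
      show flipF u (true :: u) = false :: u
      simp [flipF, flipF_short u u le_rfl]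
    · by_cases hvy : v = y
      · subst hvy
        rw [Equiv.swap_apply_right]
        apply Subtype.ext
        show flipF u (false :: u) = true :: u
        simp [flipF, flipF_short u u le_rfl]
      · rw [Equiv.swap_apply_of_ne_of_ne hvx hvy]
        obtain ⟨v, hv⟩ := v
        cases v with
        | nil => simp at hv
        | cons b w =>
          have hw : w.length = u.length := by simpa using hv
          apply Subtype.ext
          show flipF u (b :: w) = b :: w
          have hwu : w ≠ u := by
            rintro rfl
            cases b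
            · exact hvy rfl
            · exact hvx rfl
          simp [flipF, flipF_short u w hw.le, hwu]
  rw [h1, Perm.sign_swap hxy]

theorem sg_flip_ne (u : List Bool) (n : ℕ) (h : n ≠ u.length + 1) : sg n (flip u) = 1 := by
  rcases Nat.lt_or_ge u.length n with h1 | h1
  · obtain ⟨m, rfl⟩ : ∃ m, n = m + 1 := ⟨n - 1, by omega⟩
    apply sg_eq_one
    intro w hw b
    have : w ≠ u := by
      rintro rfl
      omega
    show flipF u (b :: w) = b :: flipF u w
    simp [flipF, this]
  · have := flip_mem_ker u n h1
    rw [MonoidHom.mem_ker] at this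
    show Perm.sign (lv n (flip u)) = 1
    rw [this, map_one]

/-! ### the characters -/

/-- the product of the signs over the levels `n` with `(unpair n).1 = a` -/
noncomputable def chi (a : ℕ) : GG →* ℤˣ where
  toFun g := ∏ᶠ n : ℕ, if (Nat.unpair n).1 = a then sg n g else 1
  map_one' := by simp
  map_mul' g h := by
    rw [← finprod_mul_distrib]
    · apply finprod_congr
      intro n
      by_cases hn : (Nat.unpair n).1 = a <;> simp [hn]
    · apply (mulSupport_sg_finite g).subset
      intro n hn hn'
      apply hn
      simp only at hn' ⊢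
      rw [hn']; simp
    · apply (mulSupport_sg_finite h).subset
      intro n hn hn'
      apply hn
      simp only at hn' ⊢
      rw [hn']; simp

theorem chi_flip (a : ℕ) (u : List Bool) :
    chi a (flip u) = if (Nat.unpair (u.length + 1)).1 = a then -1 else 1 := by
  show (∏ᶠ n : ℕ, if (Nat.unpair n).1 = a then sg n (flip u) else 1) = _
  rw [finprod_eq_single _ (u.length + 1)]
  · by_cases h : (Nat.unpair (u.length + 1)).1 = a <;> simp [h, sg_flip_self]
  · intro n hn
    rw [sg_flip_ne u n hn]; simp

/-! ### transitivity -/

theorem exists_smul_eq' (v w : List Bool) (h : v.length = w.length) : ∃ g : GG, g • v = w := by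
  induction v generalizing w with
  | nil =>
    cases w with
    | nil => exact ⟨1, rfl⟩
    | cons c w => simp at h
  | cons b v ih =>
    cases w with
    | nil => simp at h
    | cons c w =>
      obtain ⟨g, hg⟩ := ih w (by simpa using h)
      obtain ⟨d, hd⟩ := exists_bit g b v
      by_cases hdc : d = c
      · exact ⟨g, by rw [hd, hg, hdc]⟩
      · refine ⟨flip w * g, ?_⟩
        rw [mul_smul, hd, hg, flip_smul]
        have : (!d) = c := by
          cases d <;> cases c <;> simp_all
        simp only [flipF, if_true, this, flipF_short w w le_rfl]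

/-! ### rigid stabilisers -/

/-- the ancestor at level `n` -/
def anc (n : ℕ) (w : List Bool) : List Bool := w.drop (w.length - n)

theorem anc_len (n : ℕ) (w : List Bool) (h : n ≤ w.length) : (anc n w).length = n := by
  unfold anc
  rw [List.length_drop]; omega

theorem anc_cons (n : ℕ) (b : Bool) (w : List Bool) (h : n ≤ w.length) :
    anc n (b :: w) = anc n w := by
  unfold anc
  rw [List.length_cons, Nat.succ_sub h, List.drop_succ_cons]

theorem anc_smul (n : ℕ) (g : GG) (hg : g ∈ (lv n).ker) (w : List Bool) (h : n ≤ w.length) :
    anc n (g • w) = anc n w := by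
  induction w with
  | nil =>
    have : g • ([] : List Bool) = [] := List.length_eq_zero_iff.1 (smul_len g [])
    rw [this]
  | cons b w ih =>
    by_cases hn : n ≤ w.length
    · obtain ⟨c, hc⟩ := exists_bit g b w
      rw [hc, anc_cons n c _ (by rw [smul_len]; exact hn), anc_cons n b w hn, ih hn]
    · have : (b :: w).length = n := by
        simp at h ⊢; omega
      rw [(mem_ker_lv n g).1 hg _ this]

/-- apply `g` below the vertices in `A` -/
noncomputable def cutF (n : ℕ) (A : Finset (List Bool)) (g : GG) (w : List Bool) : List Bool :=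
  if n ≤ w.length ∧ anc n w ∈ A then g • w else w

theorem cutF_len (n : ℕ) (A : Finset (List Bool)) (g : GG) (w : List Bool) :
    (cutF n A g w).length = w.length := by
  unfold cutF
  split_ifs
  · exact smul_len g w
  · rfl

theorem cutF_inv (n : ℕ) (A : Finset (List Bool)) (g : GG) (hg : g ∈ (lv n).ker) (w : List Bool) :
    cutF n A g⁻¹ (cutF n A g w) = w := by
  unfold cutF
  by_cases h : n ≤ w.length ∧ anc n w ∈ A
  · rw [if_pos h, if_pos, inv_smul_smul]
    rw [smul_len, anc_smul n g hg w h.1]; exact h
  · rw [if_neg h, if_neg h]

/-- the same, as an element of the group -/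
noncomputable def cut (n : ℕ) (A : Finset (List Bool)) (g : GG) (hg : g ∈ (lv n).ker) : GG :=
  ⟨⟨cutF n A g, cutF n A g⁻¹, cutF_inv n A g hg, by
    intro w
    have := cutF_inv n A g⁻¹ (inv_mem hg) w
    rwa [inv_inv] at this⟩, by
    refine ⟨cutF_len n A g, fun w => ?_, ?_⟩
    · show (cutF n A g w).tail = cutF n A g w.tail
      cases w with
      | nil =>
        have : cutF n A g [] = [] := List.length_eq_zero_iff.1 (cutF_len n A g [])
        simp [this]
      | cons b w =>
        unfold cutF
        rw [List.tail_cons]
        by_cases hn : n ≤ w.length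
        · rw [anc_cons n b w hn]
          have h2 : n ≤ (b :: w).length := by simp; omega
          by_cases hA : anc n w ∈ A
          · rw [if_pos ⟨h2, hA⟩, if_pos ⟨hn, hA⟩, smul_tail, List.tail_cons]
          · rw [if_neg (fun h => hA h.2), if_neg (fun h => hA h.2), List.tail_cons]
        · rw [if_neg (c := n ≤ w.length ∧ _) (fun h => hn h.1)]
          split_ifs with h
          · have h3 : (b :: w).length = n := by
              have := h.1
              simp at this ⊢; omega
            rw [(mem_ker_lv n g).1 hg _ h3, List.tail_cons]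
          · rfl
    · obtain ⟨N, hN⟩ := g.2.2.2
      refine ⟨max N n, fun w hw b => ?_⟩
      have hn : n ≤ w.length := le_trans (le_max_right _ _) hw
      show cutF n A g (b :: w) = b :: cutF n A g w
      unfold cutF
      rw [anc_cons n b w hn]
      have h2 : n ≤ (b :: w).length := by simp; omega
      by_cases hA : anc n w ∈ A
      · rw [if_pos ⟨h2, hA⟩, if_pos ⟨hn, hA⟩]
        exact hN w (le_trans (le_max_left _ _) hw) b
      · rw [if_neg (fun h => hA h.2), if_neg (fun h => hA h.2)]⟩

theorem cut_smul (n : ℕ) (A : Finset (List Bool)) (g : GG) (hg : g ∈ (lv n).ker) (w : List Bool) :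
    cut n A g hg • w = cutF n A g w := rfl

theorem ext_smul (g h : GG) (H : ∀ w : List Bool, g • w = h • w) : g = h := by
  apply Subtype.ext
  ext1 w
  exact H w

theorem drop_iterate (w : List Bool) (k : ℕ) : List.tail^[k] w = w.drop k := by
  induction k generalizing w with
  | zero => rfl
  | succ k ih =>
    rw [Function.iterate_succ_apply, ih]
    cases w with
    | nil => simp
    | cons b w => simp

theorem ker_le_closure (n : ℕ) : (lv n).ker ≤ Subgroup.closure {g : GG | ∃ v : List Bool,
    v.length = n ∧ ∀ w : List Bool, (∀ k : ℕ, List.tail^[k] w ≠ v) → g • w = w} := by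
  classical
  intro g hg
  have key : ∀ A : Finset (List Bool), (∀ v ∈ A, v.length = n) →
      cut n A g hg ∈ Subgroup.closure {g : GG | ∃ v : List Bool,
        v.length = n ∧ ∀ w : List Bool, (∀ k : ℕ, List.tail^[k] w ≠ v) → g • w = w} := by
    intro A
    induction A using Finset.induction_on with
    | empty =>
      intro _
      have : cut n ∅ g hg = 1 := by
        apply ext_smul
        intro w
        rw [cut_smul]; simp [cutF]
      rw [this]; exact Subgroup.one_mem _
    | insert v A hv ih =>
      intro hA
      have h1 : cut n (insert v A) g hg = cut n A g hg * cut n {v} g hg := by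
        apply ext_smul
        intro w
        rw [mul_smul, cut_smul, cut_smul, cut_smul]
        by_cases hn : n ≤ w.length
        · by_cases hw : anc n w = v
          · have e1 : cutF n {v} g w = g • w := by simp [cutF, hn, hw]
            have e2 : cutF n (insert v A) g w = g • w := by simp [cutF, hn, hw]
            rw [e1, e2]
            unfold cutF
            rw [if_neg]
            rw [anc_smul n g hg w hn, hw]
            exact fun h => hv h.2
          · have e1 : cutF n {v} g w = w := by simp [cutF, hw]
            rw [e1]
            simp [cutF, hw]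
        · simp [cutF, hn]
      rw [h1]
      refine Subgroup.mul_mem _ (ih fun u hu => hA u (Finset.mem_insert_of_mem hu)) ?_
      apply Subgroup.subset_closure
      refine ⟨v, hA v (Finset.mem_insert_self _ _), fun w hw => ?_⟩
      rw [cut_smul]
      unfold cutF
      rw [if_neg]
      rintro ⟨h2, h3⟩
      rw [Finset.mem_singleton] at h3
      exact hw (w.length - n) (by rw [drop_iterate]; exact h3)
  have hfin := List.finite_length_eq Bool n
  have h2 : cut n hfin.toFinset g hg = g := by
    apply ext_smul
    intro w
    rw [cut_smul]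
    unfold cutF
    by_cases hn : n ≤ w.length
    · rw [if_pos]
      refine ⟨hn, ?_⟩
      rw [Set.Finite.mem_toFinset]
      exact anc_len n w hn
    · rw [if_neg (fun h => hn h.1)]
      have h3 := ker_lv_le (le_of_lt (not_le.1 hn)) hg
      exact ((mem_ker_lv _ g).1 h3 w rfl).symm
  rw [← h2]
  exact key _ (fun v hv => by
    rw [Set.Finite.mem_toFinset] at hv
    exact hv)

end Pool.Agent.H67T
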